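import Pool.Agent.P8H23.SC.Core

/-!
# The number of the heavy blocks and the recursion
-/

set_option autoImplicit false

namespace Pool.Agent.P8H23.SC

open Finset
open scoped Classical

variable {A : Set ℕ}

lemma fin_blocks (N L : ℕ) :
    ((fun s : ℕ => {i : Fin L | s + (i : ℕ) ∈ A}) '' {s | s + L ≤ N}).Finite := Set.toFinite _

lemma K_pos {N K : ℕ} (hN : 1 ≤ N) (hK : ∀ L, 1 ≤ L → L ≤ N → blocks A N L ≤ K * L) : 1 ≤ K := by
  have h1 := hK 1 le_rfl hN
  have h2 : 0 < blocks A N 1 := by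
    unfold blocks
    rw [Set.ncard_pos (fin_blocks N 1)]
    exact ⟨_, 0, by show 0 + 1 ≤ N; omega, rfl⟩
  omega

/-- the same block: the windows around one heavy block are different -/
lemma diff_off {h x y s k o o' L : ℕ} (ho' : o' < L) (hlt : o < o')
    (hk : s = x + k * L) (hk1 : 1 ≤ k) (hy : s + 4 * L ≤ y) (hQs : Q A h s (s + L))
    (hsame : Same A (s - o') (s - o) (4 * L)) : Q A (h + 1) x y := by
  have hsL : x + L ≤ s := by rw [hk]; nlinarith
  set d := o' - o with hd
  have hd0 : 0 < d := by omega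
  have e1 : s - o = s - o' + d := by omega
  rw [e1] at hsame
  -- the multiple of the period
  obtain ⟨j, hj1, hj2⟩ : ∃ j, L ≤ j * d ∧ j * d < L + d := by
    refine ⟨(L + d - 1) / d, ?_, ?_⟩
    · have h1 := Nat.div_add_mod (L + d - 1) d
      have h2 := Nat.mod_lt (L + d - 1) hd0
      rw [mul_comm] at h1
      omega
    · have h1 := Nat.div_mul_le_self (L + d - 1) d
      omega
  refine ⟨s, L, j * d, hj1, by omega, by omega, ?_, hQs⟩
  intro t ht
  have h1 := period hsame j (o' + t) (by omega)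
  rw [show s - o' + (o' + t) = s + t by omega,
    show s - o' + j * d + (o' + t) = s + j * d + t by omega] at h1
  exact h1

/-- different blocks -/
lemma diff_blk {h x y k k' o o' L : ℕ} (ho : o < L) (ho' : o' < L) (hk1 : 1 ≤ k)
    (hkk : k + 5 ≤ k') (hy : x + k' * L + 4 * L ≤ y)
    (hQs : Q A h (x + k * L) (x + k * L + L))
    (hsame : Same A (x + k * L - o) (x + k' * L - o') (4 * L)) : Q A (h + 1) x y := by
  have h0 : L ≤ k * L := Nat.le_mul_of_pos_left _ hk1
  have h1 : k * L + 5 * L ≤ k' * L := by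
    have := Nat.mul_le_mul_right L hkk
    rwa [add_mul] at this
  refine ⟨x + k * L - o, 4 * L, (x + k' * L - o') - (x + k * L - o), by omega, by omega, by omega,
    ?_, Q_mono (by omega) (by omega) hQs⟩
  rw [show x + k * L - o + (x + k' * L - o' - (x + k * L - o)) = x + k' * L - o' by omega]
  exact hsame

theorem heavy_count {N K : ℕ} (hK : ∀ L, 1 ≤ L → L ≤ N → blocks A N L ≤ K * L) {h m i x : ℕ}
    (hi : i ≤ m) (hN : x + 2 ^ m ≤ N) (hQ : ¬ Q A (h + 1) x (x + 2 ^ m)) :
    ((range (2 ^ (m - i))).filter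
      (fun k => Q A h (x + k * 2 ^ i) (x + k * 2 ^ i + 2 ^ i))).card ≤ 25 * K := by
  have hK1 : 1 ≤ K := K_pos (le_trans (le_trans Nat.one_le_two_pow (Nat.le_add_left _ x)) hN) hK
  obtain ⟨L, hL⟩ : ∃ L, L = 2 ^ i := ⟨_, rfl⟩
  obtain ⟨n, hn⟩ : ∃ n, n = 2 ^ (m - i) := ⟨_, rfl⟩
  have hnL : n * L = 2 ^ m := by
    rw [hn, hL, ← pow_add, Nat.sub_add_cancel hi]
  have hL0 : 0 < L := by rw [hL]; positivity
  rw [← hL, ← hn]
  rw [← hnL] at hN hQ
  set H := (range n).filter (fun k => Q A h (x + k * L) (x + k * L + L)) with hH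
  set H' := H.filter (fun k => 1 ≤ k ∧ k + 4 ≤ n) with hH'
  have c1 : H.card ≤ H'.card + 5 := by
    have hsub : H ⊆ H' ∪ (insert 0 (Ico (n - 3) n)) := by
      intro k hk
      rw [mem_union, mem_filter, mem_insert, mem_Ico]
      by_cases h1 : 1 ≤ k ∧ k + 4 ≤ n
      · exact Or.inl ⟨hk, h1⟩
      · right
        rw [hH, mem_filter, mem_range] at hk
        omega
    have h1 := card_le_card hsub
    have h2 := card_union_le H' (insert 0 (Ico (n - 3) n))
    have h3 := card_insert_le 0 (Ico (n - 3) n)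
    rw [Nat.card_Ico] at h3
    omega
  have c2 : H'.card ≤ 20 * K := by
    rcases H'.eq_empty_or_nonempty with he | ⟨k0, hk0⟩
    · rw [he, card_empty]; exact Nat.zero_le _
    · have hn5 : 5 ≤ n := by
        rw [hH', mem_filter] at hk0
        omega
      have h4N : 4 * L ≤ N := by nlinarith
      let P := H' ×ˢ range L
      let Φ : ℕ × ℕ → Set (Fin (4 * L)) := fun p => {i | x + p.1 * L - p.2 + (i : ℕ) ∈ A}
      have hP : ∀ p ∈ P, (1 ≤ p.1 ∧ p.1 + 4 ≤ n) ∧ Q A h (x + p.1 * L) (x + p.1 * L + L) ∧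
          p.2 < L := by
        intro p hp
        rw [mem_product, hH', mem_filter, hH, mem_filter, mem_range] at hp
        exact ⟨hp.1.2, hp.1.1.2, by simpa using hp.2⟩
      have him : (P.image Φ).card ≤ K * (4 * L) := by
        refine le_trans ?_ (hK (4 * L) (by omega) h4N)
        unfold blocks
        rw [← Set.ncard_coe_finset]
        refine Set.ncard_le_ncard ?_ (fin_blocks N (4 * L))
        intro c hc
        rw [mem_coe, mem_image] at hc
        obtain ⟨p, hp, rfl⟩ := hc
        obtain ⟨⟨h1, h2⟩, -, h3⟩ := hP p hp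
        refine ⟨x + p.1 * L - p.2, ?_, rfl⟩
        have h4 : (p.1 + 4) * L ≤ n * L := Nat.mul_le_mul_right L h2
        rw [add_mul] at h4
        show x + p.1 * L - p.2 + 4 * L ≤ N
        omega
      have hsame : ∀ p q : ℕ × ℕ, Φ p = Φ q →
          Same A (x + p.1 * L - p.2) (x + q.1 * L - q.2) (4 * L) := by
        intro p q hpq t ht
        have h1 : (⟨t, ht⟩ : Fin (4 * L)) ∈ Φ p ↔ (⟨t, ht⟩ : Fin (4 * L)) ∈ Φ q := by rw [hpq]
        exact h1
      have hrange : ∀ p ∈ P, x + p.1 * L + 4 * L ≤ x + n * L := by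
        intro p hp
        have h4 : (p.1 + 4) * L ≤ n * L := Nat.mul_le_mul_right L (hP p hp).1.2
        rw [add_mul] at h4
        omega
      have hsym : ∀ s t, Same A s t (4 * L) → Same A t s (4 * L) := fun s t h i hi => (h i hi).symm
      have hfib1 : ∀ p ∈ P, ∀ q ∈ P, Φ p = Φ q → p.1 = q.1 → p = q := by
        intro p hp q hq hpq h1
        have h2 := hsame p q hpq
        obtain ⟨⟨a1, a2⟩, a3, a4⟩ := hP p hp
        obtain ⟨⟨b1, b2⟩, b3, b4⟩ := hP q hq
        rcases lt_trichotomy p.2 q.2 with h3 | h3 | h3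
        · exfalso
          refine hQ (diff_off (s := x + p.1 * L) b4 h3 rfl a1 (hrange p hp) a3 ?_)
          rw [← h1] at h2
          exact hsym _ _ h2
        · exact Prod.ext h1 h3
        · exfalso
          refine hQ (diff_off (s := x + q.1 * L) a4 h3 rfl b1 (hrange q hq) b3 ?_)
          rw [h1] at h2
          exact h2
      have hfib2 : ∀ p ∈ P, ∀ q ∈ P, Φ p = Φ q → q.1 < p.1 + 5 := by
        intro p hp q hq hpq
        by_contra h3
        push Not at h3
        obtain ⟨⟨a1, a2⟩, a3, a4⟩ := hP p hp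
        obtain ⟨⟨b1, b2⟩, b3, b4⟩ := hP q hq
        exact hQ (diff_blk a4 b4 a1 h3 (hrange q hq) a3 (hsame p q hpq))
      have hcard := card_le_mul_card_image (f := Φ) P 5 (by
        intro c hc
        rcases (P.filter (fun p => Φ p = c)).eq_empty_or_nonempty with he | hne
        · rw [he, card_empty]; omega
        · obtain ⟨p, hp, hpmin⟩ := exists_min_image _ (fun p : ℕ × ℕ => p.1) hne
          rw [mem_filter] at hp
          have h1 : (P.filter (fun p => Φ p = c)).card ≤ (Ico p.1 (p.1 + 5)).card := by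
            refine card_le_card_of_injOn (fun p : ℕ × ℕ => p.1) ?_ ?_
            · intro q hq
              rw [mem_coe] at hq
              rw [mem_coe, mem_Ico]
              refine ⟨hpmin q hq, ?_⟩
              rw [mem_filter] at hq
              exact hfib2 p hp.1 q hq.1 (hp.2.trans hq.2.symm)
            · intro q hq r hr hqr
              rw [mem_coe, mem_filter] at hq hr
              exact hfib1 q hq.1 r hr.1 (hq.2.trans hr.2.symm) hqr
          rw [Nat.card_Ico] at h1
          omega)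
      have hPc : P.card = H'.card * L := by rw [card_product, card_range]
      rw [hPc] at hcard
      have h5 : H'.card * L ≤ (20 * K) * L := by
        calc H'.card * L ≤ 5 * (P.image Φ).card := hcard
          _ ≤ 5 * (K * (4 * L)) := Nat.mul_le_mul_left 5 him
          _ = (20 * K) * L := by ring
      exact Nat.le_of_mul_le_mul_right h5 hL0
  omega

/-- the recursion -/
theorem count_le {N K M : ℕ} (hK : ∀ L, 1 ≤ L → L ≤ N → blocks A N L ≤ K * L) :
    ∀ h m x : ℕ, m ≤ M → x + 2 ^ m ≤ N → ¬ Q A (h + 1) x (x + 2 ^ m) →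
      cnt A x (2 ^ m) ≤ (50 * K * (M + 1)) ^ h := by
  intro h
  induction h with
  | zero =>
    intro m x _ _ hQ
    rw [pow_zero]
    exact cnt_le_one hQ
  | succ h ih =>
    intro m x hm hN hQ
    have hK1 : 1 ≤ K := K_pos (le_trans (le_trans Nat.one_le_two_pow (Nat.le_add_left _ x)) hN) hK
    set B := (50 * K * (M + 1)) ^ h with hB
    have hB1 : B ≤ (50 * K * (M + 1)) ^ (h + 1) := by
      rw [pow_succ]
      exact Nat.le_mul_of_pos_right _ (by positivity)
    by_cases hI : Q A (h + 1) x (x + 2 ^ m)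
    swap
    · exact (ih m x hm hN hI).trans hB1
    let S : ℕ → ℕ := fun i => ∑ k ∈ range (2 ^ (m - i)),
      if Q A (h + 1) (x + k * 2 ^ i) (x + k * 2 ^ i + 2 ^ i) then cnt A (x + k * 2 ^ i) (2 ^ i) else 0
    have hS0 : S 0 = 0 := by
      refine sum_eq_zero fun k _ => ?_
      rw [pow_zero, mul_one, if_neg not_Q_one]
    have hSm : S m = cnt A x (2 ^ m) := by
      show ∑ k ∈ range (2 ^ (m - m)), _ = _
      rw [Nat.sub_self, pow_zero, sum_range_one, zero_mul, add_zero, if_pos hI]
    have hstep : ∀ i, i < m → S (i + 1) ≤ S i + 50 * K * B := by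
      intro i hi
      have e1 : 2 ^ (m - i) = 2 * 2 ^ (m - (i + 1)) := by
        rw [← pow_succ']
        congr 1
        omega
      have hcount := heavy_count hK (h := h + 1) (m := m) (i := i + 1) (x := x) (by omega) hN hQ
      show ∑ k ∈ range (2 ^ (m - (i + 1))), _ ≤ ∑ k ∈ range (2 ^ (m - i)), _ + _
      rw [e1, sum_range_two]
      have e2 : ∀ k ∈ range (2 ^ (m - (i + 1))),
          (if Q A (h + 1) (x + k * 2 ^ (i + 1)) (x + k * 2 ^ (i + 1) + 2 ^ (i + 1)) then
            cnt A (x + k * 2 ^ (i + 1)) (2 ^ (i + 1)) else 0) ≤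
          ((if Q A (h + 1) (x + (2 * k) * 2 ^ i) (x + (2 * k) * 2 ^ i + 2 ^ i) then
            cnt A (x + (2 * k) * 2 ^ i) (2 ^ i) else 0) +
          (if Q A (h + 1) (x + (2 * k + 1) * 2 ^ i) (x + (2 * k + 1) * 2 ^ i + 2 ^ i) then
            cnt A (x + (2 * k + 1) * 2 ^ i) (2 ^ i) else 0)) +
          (if Q A (h + 1) (x + k * 2 ^ (i + 1)) (x + k * 2 ^ (i + 1) + 2 ^ (i + 1)) then
            2 * B else 0) := by
        intro k hk
        rw [mem_range] at hk
        by_cases hq : Q A (h + 1) (x + k * 2 ^ (i + 1)) (x + k * 2 ^ (i + 1) + 2 ^ (i + 1))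
        swap
        · rw [if_neg hq]; exact Nat.zero_le _
        rw [if_pos hq, if_pos hq]
        have e3 : x + k * 2 ^ (i + 1) = x + (2 * k) * 2 ^ i := by ring
        have e4 : x + (2 * k) * 2 ^ i + 2 ^ i = x + (2 * k + 1) * 2 ^ i := by ring
        have e5 : (2 : ℕ) ^ (i + 1) = 2 ^ i + 2 ^ i := by ring
        rw [e3, e5, cnt_add, e4]
        have e6 : (2 * k + 2) * 2 ^ i ≤ 2 ^ m := by
          have h1 : (2 * k + 2) * 2 ^ i ≤ (2 * 2 ^ (m - (i + 1))) * 2 ^ i :=
            Nat.mul_le_mul_right _ (by omega)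
          refine h1.trans (le_of_eq ?_)
          rw [← e1, ← pow_add]
          congr 1
          omega
        have e7 : (2 * k + 2) * 2 ^ i = (2 * k) * 2 ^ i + 2 ^ i + 2 ^ i := by ring
        have e8 : (2 * k + 1) * 2 ^ i = (2 * k) * 2 ^ i + 2 ^ i := by ring
        have e9 : 0 < 2 ^ i := by positivity
        have light : ∀ z, z + 2 ^ i ≤ N → cnt A z (2 ^ i) ≤
            (if Q A (h + 1) z (z + 2 ^ i) then cnt A z (2 ^ i) else 0) + B := by
          intro z hz
          split_ifs with hq'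
          · exact Nat.le_add_right _ _
          · rw [zero_add]
            exact ih i z (by omega) hz hq'
        have l1 := light (x + (2 * k) * 2 ^ i) (by omega)
        have l2 := light (x + (2 * k + 1) * 2 ^ i) (by omega)
        rw [e4] at l1
        omega
      refine (sum_le_sum e2).trans ?_
      rw [sum_add_distrib]
      apply Nat.add_le_add_left
      rw [← sum_filter, sum_const, smul_eq_mul]
      calc _ ≤ (25 * K) * (2 * B) := Nat.mul_le_mul_right _ hcount
        _ = 50 * K * B := by ring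
    have hall : ∀ i, i ≤ m → S i ≤ i * (50 * K * B) := by
      intro i
      induction i with
      | zero => intro _; rw [hS0]; exact Nat.zero_le _
      | succ i ihi =>
        intro hi
        have h1 := hstep i hi
        have h2 := ihi (by omega)
        calc S (i + 1) ≤ S i + 50 * K * B := h1
          _ ≤ i * (50 * K * B) + 50 * K * B := by omega
          _ = (i + 1) * (50 * K * B) := by ring
    have h1 := hall m le_rfl
    rw [hSm] at h1
    calc cnt A x (2 ^ m) ≤ m * (50 * K * B) := h1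
      _ ≤ (M + 1) * (50 * K * B) := Nat.mul_le_mul_right _ (by omega)
      _ = (50 * K * (M + 1)) ^ (h + 1) := by rw [hB, pow_succ]; ring

/-- **The main inequality.** -/
theorem main {N K D : ℕ} (hK : ∀ L, 1 ≤ L → L ≤ N → blocks A N L ≤ K * L)
    (hr : ∀ n, rep A n < 2 ^ (D + 1)) : cnt A 0 N ≤ 2 * (50 * K * (Nat.log 2 N + 1)) ^ D := by
  rcases Nat.eq_zero_or_pos N with rfl | hN
  · rw [cnt_zero]; exact Nat.zero_le _
  have hQ : ∀ x y, ¬ Q A (D + 1) x y := by
    intro x y h
    obtain ⟨n, hn⟩ := rep_of_Q h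
    exact absurd (hr n) (not_lt.2 hn)
  obtain ⟨m, hm⟩ : ∃ m, m = Nat.log 2 N := ⟨_, rfl⟩
  have h1 : 2 ^ m ≤ N := by rw [hm]; exact Nat.pow_log_le_self 2 (by omega)
  have h2 : N < 2 ^ (m + 1) := by rw [hm]; exact Nat.lt_pow_succ_log_self (by norm_num) N
  rw [pow_succ] at h2
  have h3 := count_le hK D m 0 le_rfl (by omega) (hQ _ _)
  have h4 := count_le hK D m (N - 2 ^ m) le_rfl (by omega) (hQ _ _)
  have h5 : cnt A 0 N ≤ cnt A 0 (2 ^ m) + cnt A (N - 2 ^ m) (2 ^ m) := by
    have e1 : N = (N - 2 ^ m) + 2 ^ m := by omega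
    calc cnt A 0 N = cnt A 0 ((N - 2 ^ m) + 2 ^ m) := by rw [← e1]
      _ = cnt A 0 (N - 2 ^ m) + cnt A (N - 2 ^ m) (2 ^ m) := by rw [cnt_add, zero_add]
      _ ≤ _ := Nat.add_le_add_right (cnt_mono 0 (by omega)) _
  rw [← hm]
  omega

end Pool.Agent.P8H23.SC
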