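import Pool.Agent.P8H23.SC.Defs

/-!
# Repeated blocks and cubes
-/

set_option autoImplicit false

namespace Pool.Agent.P8H23.SC

open Finset
open scoped Classical

variable {A : Set ℕ}

/-- the blocks of length `L` at `s` and at `t` agree -/
def Same (A : Set ℕ) (s t L : ℕ) : Prop := ∀ i < L, (s + i ∈ A ↔ t + i ∈ A)

/-- `A ∩ [x, y)` contains a cube of dimension `h`, found by repeated blocks -/
def Q (A : Set ℕ) : ℕ → ℕ → ℕ → Prop
  | 0, x, y => ∃ a ∈ A, x ≤ a ∧ a < y
  | h + 1, x, y => ∃ u l d, l ≤ d ∧ x ≤ u ∧ u + d + l ≤ y ∧ Same A u (u + d) l ∧ Q A h u (u + l)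

lemma Q_mono {h x y x' y' : ℕ} (hx : x' ≤ x) (hy : y ≤ y') (hQ : Q A h x y) : Q A h x' y' := by
  cases h with
  | zero =>
    obtain ⟨a, ha, h1, h2⟩ := hQ
    exact ⟨a, ha, hx.trans h1, h2.trans_le hy⟩
  | succ h =>
    obtain ⟨u, l, d, h1, h2, h3, h4, h5⟩ := hQ
    exact ⟨u, l, d, h1, hx.trans h2, h3.trans hy, h4, h5⟩

lemma Q_same {h : ℕ} : ∀ {x x' L : ℕ}, Same A x x' L → Q A h x (x + L) → Q A h x' (x' + L) := by
  induction h with
  | zero =>
    intro x x' L hs hQ
    obtain ⟨a, ha, h1, h2⟩ := hQ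
    refine ⟨x' + (a - x), (hs (a - x) (by omega)).1 (by rwa [Nat.add_sub_cancel' h1]), by omega,
      by omega⟩
  | succ h ih =>
    intro x x' L hs hQ
    obtain ⟨u, l, d, h1, h2, h3, h4, h5⟩ := hQ
    obtain ⟨c, rfl⟩ := Nat.exists_eq_add_of_le h2
    refine ⟨x' + c, l, d, h1, by omega, by omega, ?_, ih (x := x + c) (x' := x' + c) ?_ h5⟩
    · intro i hi
      have e1 := hs (c + i) (by omega)
      have e2 := hs (c + d + i) (by omega)
      have e3 := h4 i hi
      rw [show x' + c + i = x' + (c + i) by ring, show x' + c + d + i = x' + (c + d + i) by ring,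
        ← e1, ← e2]
      rw [show x + c + i = x + (c + i) by ring, show x + c + d + i = x + (c + d + i) by ring] at e3
      exact e3
    · intro i hi
      have e1 := hs (c + i) (by omega)
      rw [show x' + c + i = x' + (c + i) by ring, show x + c + i = x + (c + i) by ring]
      exact e1

/-- the cube and its symmetry -/
lemma Q_cube {h : ℕ} : ∀ {x y : ℕ}, Q A h x y → ∃ (n : ℕ) (T : Finset ℕ), T.card = 2 ^ h ∧
    ∀ t ∈ T, x ≤ t ∧ t < y ∧ t ∈ A ∧ t ≤ n ∧ n - t ∈ T := by
  induction h with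
  | zero =>
    rintro x y ⟨a, ha, h1, h2⟩
    refine ⟨2 * a, {a}, by simp, fun t ht => ?_⟩
    rw [mem_singleton] at ht
    subst ht
    refine ⟨h1, h2, ha, by omega, ?_⟩
    rw [mem_singleton]
    omega
  | succ h ih =>
    rintro x y ⟨u, l, d, h1, h2, h3, h4, h5⟩
    obtain ⟨n, T, hT, hT2⟩ := ih h5
    refine ⟨n + d, T ∪ T.image (fun t => t + d), ?_, ?_⟩
    · rw [card_union_of_disjoint, card_image_of_injective _ (add_left_injective d), hT]
      · ring
      · rw [disjoint_left]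
        intro t ht ht'
        rw [mem_image] at ht'
        obtain ⟨t', ht', rfl⟩ := ht'
        have e1 := hT2 _ ht
        have e2 := hT2 _ ht'
        omega
    · intro t ht
      rw [mem_union, mem_image] at ht
      rcases ht with ht | ⟨t', ht', rfl⟩
      · obtain ⟨e1, e2, e3, e4, e5⟩ := hT2 t ht
        refine ⟨by omega, by omega, e3, by omega, ?_⟩
        rw [mem_union, mem_image]
        exact Or.inr ⟨n - t, e5, by omega⟩
      · obtain ⟨e1, e2, e3, e4, e5⟩ := hT2 t' ht'
        refine ⟨by omega, by omega, ?_, by omega, ?_⟩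
        · have e6 := (h4 (t' - u) (by omega)).1 (by rwa [Nat.add_sub_cancel' e1])
          rwa [show u + d + (t' - u) = t' + d by omega] at e6
        · rw [mem_union]
          left
          rwa [show n + d - (t' + d) = n - t' by omega]

lemma rep_fin (n : ℕ) : {p : ℕ × ℕ | p.1 ∈ A ∧ p.2 ∈ A ∧ p.1 + p.2 = n}.Finite := by
  refine (Set.Finite.prod (Set.finite_Iic n) (Set.finite_Iic n)).subset ?_
  rintro ⟨a, b⟩ ⟨-, -, h⟩
  simp only [Set.mem_prod, Set.mem_Iic] at h ⊢
  omega

lemma rep_of_Q {h x y : ℕ} (hQ : Q A h x y) : ∃ n, 2 ^ h ≤ rep A n := by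
  obtain ⟨n, T, hT, hT2⟩ := Q_cube hQ
  refine ⟨n, ?_⟩
  have h1 : (((T.image fun t => (t, n - t)) : Finset (ℕ × ℕ)) : Set (ℕ × ℕ)) ⊆
      {p : ℕ × ℕ | p.1 ∈ A ∧ p.2 ∈ A ∧ p.1 + p.2 = n} := by
    intro p hp
    rw [mem_coe, mem_image] at hp
    obtain ⟨t, ht, rfl⟩ := hp
    obtain ⟨e1, e2, e3, e4, e5⟩ := hT2 t ht
    exact ⟨e3, (hT2 _ e5).2.2.1, by show t + (n - t) = n; omega⟩
  have h2 := Set.ncard_le_ncard h1 (rep_fin n)
  rw [Set.ncard_coe_finset, card_image_of_injective _ (fun a b hab => (Prod.ext_iff.1 hab).1),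
    hT] at h2
  exact h2

/-- the number of the elements of `A` in `[a, a + L)` -/
noncomputable def cnt (A : Set ℕ) (a L : ℕ) : ℕ := ((range L).filter (fun i => a + i ∈ A)).card

lemma cnt_zero (a : ℕ) : cnt A a 0 = 0 := by
  unfold cnt
  simp

lemma cnt_add (a L L' : ℕ) : cnt A a (L + L') = cnt A a L + cnt A (a + L) L' := by
  induction L' with
  | zero => rw [add_zero, cnt_zero, add_zero]
  | succ L' ih =>
    unfold cnt at ih ⊢
    rw [← add_assoc, range_add_one, range_add_one, filter_insert, filter_insert]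
    rw [show a + L + L' = a + (L + L') by ring]
    split_ifs with h
    · rw [card_insert_of_notMem (by simp), card_insert_of_notMem (by simp), ih]
      ring
    · exact ih

lemma cnt_mono (a : ℕ) {L L' : ℕ} (h : L ≤ L') : cnt A a L ≤ cnt A a L' := by
  obtain ⟨d, rfl⟩ := Nat.exists_eq_add_of_le h
  rw [cnt_add]
  exact Nat.le_add_right _ _

/-- two elements are a cube of dimension one -/
lemma cnt_le_one {a L : ℕ} (h : ¬ Q A 1 a (a + L)) : cnt A a L ≤ 1 := by
  by_contra hc
  push Not at hc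
  unfold cnt at hc
  obtain ⟨i, hi, j, hj, hij⟩ := one_lt_card.1 hc
  rw [mem_filter, mem_range] at hi hj
  apply h
  have key : ∀ i j, i < L → j < L → a + i ∈ A → a + j ∈ A → i < j → Q A 1 a (a + L) := by
    intro i j hi hj hiA hjA hij
    refine ⟨a + i, 1, j - i, by omega, by omega, by omega, ?_, a + i, hiA, le_refl _, by omega⟩
    intro t ht
    obtain rfl : t = 0 := by omega
    rw [add_zero, add_zero, show a + i + (j - i) = a + j by omega]
    exact iff_of_true hiA hjA
  rcases lt_or_gt_of_ne hij with h1 | h1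
  · exact key i j hi.1 hj.1 hi.2 hj.2 h1
  · exact key j i hj.1 hi.1 hj.2 hi.2 h1

lemma cnt_zero_of {a L : ℕ} (h : ¬ Q A 0 a (a + L)) : cnt A a L = 0 := by
  unfold cnt
  rw [card_eq_zero, filter_eq_empty_iff]
  intro i hi hiA
  rw [mem_range] at hi
  exact h ⟨a + i, hiA, by omega, by omega⟩

/-- a block of length one is not heavy -/
lemma not_Q_one {h a : ℕ} : ¬ Q A (h + 1) a (a + 1) := by
  rintro ⟨u, l, d, h1, h2, h3, h4, h5⟩
  obtain ⟨n, T, hT, hT2⟩ := Q_cube h5
  have h6 : 0 < T.card := by rw [hT]; positivity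
  obtain ⟨t, ht⟩ := card_pos.1 h6
  have := hT2 t ht
  omega

lemma sum_range_two (f : ℕ → ℕ) (n : ℕ) : ∑ k ∈ range (2 * n), f k =
    ∑ k ∈ range n, (f (2 * k) + f (2 * k + 1)) := by
  induction n with
  | zero => simp
  | succ n ih =>
    rw [show 2 * (n + 1) = 2 * n + 1 + 1 by ring, sum_range_succ, sum_range_succ, ih, sum_range_succ]
    ring

/-- the iterated period -/
lemma period {s d W : ℕ} (h : Same A s (s + d) W) : ∀ j i : ℕ, i + j * d < W + d →
    (s + i ∈ A ↔ s + j * d + i ∈ A) := by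
  intro j
  induction j with
  | zero => intro i _; rw [zero_mul, add_zero]
  | succ j ih =>
    intro i hi
    rw [ih i (by rw [add_mul, one_mul] at hi; omega)]
    have h1 := h (j * d + i) (by rw [add_mul, one_mul] at hi; omega)
    rw [show s + j * d + i = s + (j * d + i) by ring, h1,
      show s + d + (j * d + i) = s + (j + 1) * d + i by ring]

end Pool.Agent.P8H23.SC
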