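import Mathlib

/-!
# Representation functions and the number of different blocks (MP_491344_nt)

Definitions, and the statement of the package SHARP.
-/

set_option autoImplicit false

namespace Pool.Agent.P8H23.SC

/-- The number of ordered pairs `(a, b) ∈ A × A` with `a + b = n`. -/
noncomputable def rep (A : Set ℕ) (n : ℕ) : ℕ :=
  {p : ℕ × ℕ | p.1 ∈ A ∧ p.2 ∈ A ∧ p.1 + p.2 = n}.ncard

/-- The number of different blocks of length `L` of the characteristic sequence of `A` inside
`[0, N)`: the number of different subsets `{i | i < L, s + i ∈ A}` of `{0, ..., L - 1}`, where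
`s + L ≤ N`. -/
noncomputable def blocks (A : Set ℕ) (N L : ℕ) : ℕ :=
  ((fun s : ℕ => {i : Fin L | s + (i : ℕ) ∈ A}) '' {s | s + L ≤ N}).ncard

/-- Package SHARP. The sets which show that the main theorem is sharp up to powers of `log N`.

Proof. `S₀ = {2 p k + (k² mod p) : 0 ≤ k < p}` is a Sidon set (Erdős–Turán) with `p` elements in
`[0, 2 p²)`: a sum `2 p (k + l) + (r + r')`, `r + r' < 2 p`, determines `k + l` and `r + r'`, that is
`k² + l²` modulo `p`, so it determines `{k, l}` (for `p = 2`: check it directly, or by the same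
argument `k + l` determines `{k, l}` as `k, l ∈ {0, 1}`). Let `S = 2 S₀`, a set of even numbers in
`[0, 4 p²)`, and `M = 8 p²`. So each number is a sum of two elements of `S` in at most two ordered
ways. Let `A₀ = {0}`, `A_(j+1) = {s M ^ j + u : s ∈ S, u ∈ A_j}`, and `A = A_D`. By induction
`A_j ⊆ [0, M ^ j / 2)` for `j ≥ 1` (and `2 u < M ^ j` for all `u ∈ A_j` for all `j ≥ 0`), `A_j` has `p ^ j` elements and
`rep A_j n ≤ 2 ^ j`: if `s M ^ j + u + s' M ^ j + u' = n` then `s + s' = n / M ^ j` and
`u + u' = n % M ^ j`.

Blocks: the aligned block `[c M ^ i, (c + 1) M ^ i)` of `A_D` is empty, or a copy of `A_i` (by induction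
on `D`: digits in the basis `M`; an element is in `A_D` iff its `D` digits are in `S`). If two adjacent
aligned blocks at the level `i` with numbers `c`, `c + 1` were nonempty, `i < D`, then the lowest digits
of `c` and of `c + 1` would be in `S`, which is impossible as the elements of `S` are even and `M` is
even. Let `1 ≤ L < M ^ (i + 1)`, `M ^ i ≤ L`, `i < D`. An interval `[s, s + L)` meets at most two
(adjacent) aligned blocks at the level `i + 1`, and at most one of them is nonempty; if
`[s, s + L)` contains an element of `A`, in the nonempty block `T = [c M ^ (i+1), (c + 1) M ^ (i+1))`,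
then the set `(A - s) ∩ [0, L)` only depends on `τ = s - c M ^ (i+1)`, an integer with
`e M ^ i - L < τ < e M ^ i + M ^ i` for some `e ∈ S`. There are at most `p (L + M ^ i) ≤ 2 p L` such
`τ`. Together with the empty block there are at most `2 p L + 1 ≤ 3 p L` different blocks. For
`L = M ^ D` there is one block. -/
def S_SHARP : Prop := ∀ D p : ℕ, p.Prime → ∃ A : Set ℕ,
  (∀ n, rep A n < 2 ^ (D + 1)) ∧ (A ∩ Set.Iio ((8 * p ^ 2) ^ D)).ncard = p ^ D ∧
  ∀ L, 1 ≤ L → L ≤ (8 * p ^ 2) ^ D → blocks A ((8 * p ^ 2) ^ D) L ≤ 3 * p * L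

end Pool.Agent.P8H23.SC
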