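import Pool.Agent.P8H23.SC.Defs

/-!
# Lempel-Ziv parses (MP_491344_nt)
-/

set_option autoImplicit false

namespace Pool.Agent.P8H23.SC

/-- The characteristic sequence of `A` below `N` has a Lempel–Ziv parse with `z` phrases: a phrase is
one letter, or a copy of `l` consecutive letters which begin at an earlier place `q` (the copy may
overlap itself). -/
inductive Parses (A : Set ℕ) : ℕ → ℕ → Prop
  | nil : Parses A 0 0
  | letter {z N : ℕ} : Parses A z N → Parses A (z + 1) (N + 1)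
  | copy {z N : ℕ} (q l : ℕ) : Parses A z N → q < N → (∀ j < l, (q + j ∈ A ↔ N + j ∈ A)) →
      Parses A (z + 1) (N + l)

/-- Package SHARP2 (replaces SHARP; simpler). Proof. `S = {2 p k + (k² mod p) : 0 ≤ k < p}`,
`M = 4 p ^ 2`, `A₀ = {0}`, `A_(j+1) = {s M ^ j + u : s ∈ S, u ∈ A_j}`, `A = A_D`; as in SHARP
`2 u < M ^ j` for `u ∈ A_j`, `|A_j| = p ^ j`, `rep A_j n ≤ 2 ^ j`. `0 ∈ S`. Parses: claim
`Parses A_j (3 p j + 1) (M ^ j)`. For `j = 0` one letter. `A_(j+1)` agrees with `A_j` below `M ^ j`, so it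
has a parse of `[0, M ^ j)` with `3 p j + 1` phrases. For `c ≥ 1` with `c - 1 ∈ S` the interval
`[0, c M ^ j)` has a parse with `3 p j + 1 + 3 (|S ∩ [0, c)| - 1)` phrases (strong induction: let
`s` be the largest element of `S` below `c - 1`; after `(s + 1) M ^ j` come zeros up to `(c - 1) M ^ j`, none
or one letter and one copy of it with `q = N`, `N` the place of the letter; then a copy of `[0, M ^ j)`,
`q = 0`). After the largest element of `S` come zeros up to `M ^ (j + 1)`, two phrases. -/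
def S_SHARP2 : Prop := ∀ D p : ℕ, p.Prime → ∃ A : Set ℕ,
  (∀ n, rep A n < 2 ^ (D + 1)) ∧ (A ∩ Set.Iio ((4 * p ^ 2) ^ D)).ncard = p ^ D ∧
  ∃ z ≤ 3 * p * D + 1, Parses A z ((4 * p ^ 2) ^ D)

end Pool.Agent.P8H23.SC
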