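import Pool.Agent.P8H23.SC.Defs2

/-!
# Fixed points of morphisms (MP_491344_nt)
-/

set_option autoImplicit false

namespace Pool.Agent.P8H23.SC

/-- The length of the word `σ(w₀) σ(w₁) ⋯ σ(w_(n-1))`. Its `k`-th iterate at `1` is the length of
the word `σ ^ k (w₀)`, if `w` is a fixed point of `σ`. -/
def len {α : Type} (σ : α → List α) (w : ℕ → α) (n : ℕ) : ℕ :=
  ∑ i ∈ Finset.range n, (σ (w i)).length

/-- The infinite word `w` is a fixed point of the morphism `σ`: the word
`σ(w₀) σ(w₁) σ(w₂) ⋯` is a beginning of `w` (it is `w` itself, if it is infinite). -/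
def IsFixed {α : Type} (σ : α → List α) (w : ℕ → α) : Prop :=
  ∀ n j, (h : j < (σ (w n)).length) → w (len σ w n + j) = (σ (w n))[j]

/-- Package MOR: morphic sets have Lempel–Ziv parses with few phrases.

Proof. Write `S = len σ w`, `S k i = S^[k] i`. (a) `S` is monotone, `S (i + 1) = S i + |σ (w i)|`.
(b) By induction on `k`: if `w i = w i'` then `S k (i + 1) - S k i = S k (i' + 1) - S k i' =: l` and
`w (S k i + j) = w (S k i' + j)` for `j < l`. (In the step the interval `[S (k+1) i, S (k+1) (i+1))` is
the union of the intervals `[S k (S i + j), S k (S i + j + 1))`, `j < |σ (w i)|`, and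
`w (S i + j) = (σ (w i))[j] = w (S i' + j)`; it is convenient to prove by induction on `j` that
`S k (S i + j) - S k (S i) = S k (S i' + j) - S k (S i')` for `j ≤ |σ (w i)|`.)
(c) Call `i` old if `w i' = w i` for some `i' < i`, otherwise new. There are at most `card α` new
indices. Let `c 0 i = 1` and `c (k + 1) i = 1` if `i` is old, and
`c (k + 1) i = ∑_(j < |σ (w i)|) c k (S i + j)` if `i` is new. By induction on `k`: if
`Parses A z (S k i)` then there is `z' ≤ z + c k i` with `Parses A z' (S k (i + 1))`: for `k = 0` one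
letter; if `i` is old one copy from `q = S (k+1) i'` (if its length is `0` there is nothing to do;
otherwise `q < S (k+1) (i'+1) ≤ S (k+1) i`); if `i` is new use the induction hypothesis for
`S i, S i + 1, …`. (d) Let `E k = ∑_(i new) c k i`. Then `E 0 ≤ card α` and
`E (k + 1) ≤ card α * M + E k`, as the pairs `(i, j)`, `i` new, `j < |σ (w i)|`, with `S i + j` old
give at most `1` each, and the other ones have different `S i + j`, which are new. Here `c k i = 1` for
the old `i`. So `c k 0 ≤ E k ≤ (k + 1) card α M`, as `0` is new. (e) If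
`Parses A z N'` and `N ≤ N'` then `Parses A z' N` for some `z' ≤ z`. -/
def S_MOR : Prop := ∀ (α : Type) [Fintype α] (σ : α → List α) (w : ℕ → α) (B : Set α) (M : ℕ),
  1 ≤ M → (∀ b, (σ b).length ≤ M) → IsFixed σ w → ∀ k N, N ≤ (len σ w)^[k] 1 →
  ∃ z ≤ (k + 1) * (Fintype.card α * M), Parses {n | w n ∈ B} z N

end Pool.Agent.P8H23.SC
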