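import Pool.Agent.P8H23.SC.Cnt
import Pool.Agent.P8H23.SC.Defs2

/-!
# The number of the blocks of a sequence with a short parse
-/

set_option autoImplicit false

namespace Pool.Agent.P8H23.SC

variable {A : Set ℕ}

lemma same_block {s t L : ℕ} (h : Same A s t L) :
    ({i : Fin L | s + (i : ℕ) ∈ A} : Set (Fin L)) = {i : Fin L | t + (i : ℕ) ∈ A} := by
  ext i
  exact h i i.2

theorem blocks_parses {z N : ℕ} (h : Parses A z N) {L : ℕ} (hL : 1 ≤ L) :
    blocks A N L ≤ z * L := by
  induction h with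
  | nil =>
    have : {s : ℕ | s + L ≤ 0} = ∅ := by
      ext s
      simp only [Set.mem_ofPred_eq, Set.mem_empty_iff_false, iff_false]
      omega
    unfold blocks
    rw [this, Set.image_empty, Set.ncard_empty]
    exact Nat.zero_le _
  | @letter z N _ ih =>
    have hsub : ((fun s : ℕ => {i : Fin L | s + (i : ℕ) ∈ A}) '' {s | s + L ≤ N + 1}) ⊆
        insert {i : Fin L | (N + 1 - L) + (i : ℕ) ∈ A}
          ((fun s : ℕ => {i : Fin L | s + (i : ℕ) ∈ A}) '' {s | s + L ≤ N}) := by
      rintro _ ⟨s, hs, rfl⟩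
      have hs' : s + L ≤ N + 1 := hs
      rcases Nat.lt_or_ge N (s + L) with h1 | h1
      · left
        have e : s = N + 1 - L := by omega
        rw [e]
      · right
        exact ⟨s, h1, rfl⟩
    unfold blocks at ih ⊢
    have h1 := Set.ncard_le_ncard hsub (Set.toFinite _)
    have h2 := Set.ncard_insert_le {i : Fin L | (N + 1 - L) + (i : ℕ) ∈ A}
      ((fun s : ℕ => {i : Fin L | s + (i : ℕ) ∈ A}) '' {s | s + L ≤ N})
    rw [add_mul, one_mul]
    omega
  | @copy z N q l _ hq hc ih =>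
    have key : ∀ s, s + L ≤ N + l → ∃ s', (s' + L ≤ N ∨ (s' < N ∧ N < s' + L)) ∧ Same A s' s L := by
      intro s
      induction s using Nat.strong_induction_on with
      | _ s ihs =>
        intro hs
        rcases Nat.lt_or_ge s N with h1 | h1
        · refine ⟨s, ?_, fun i _ => Iff.rfl⟩
          rcases Nat.lt_or_ge N (s + L) with h2 | h2
          · exact Or.inr ⟨h1, h2⟩
          · exact Or.inl h2
        · obtain ⟨s', h2, h3⟩ := ihs (q + (s - N)) (by omega) (by omega)
          refine ⟨s', h2, fun i hi => (h3 i hi).trans ?_⟩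
          have h4 := hc (s - N + i) (by omega)
          rw [show q + (s - N) + i = q + (s - N + i) by ring, h4,
            show N + (s - N + i) = s + i by omega]
    have hsub : ((fun s : ℕ => {i : Fin L | s + (i : ℕ) ∈ A}) '' {s | s + L ≤ N + l}) ⊆
        ((fun s : ℕ => {i : Fin L | s + (i : ℕ) ∈ A}) '' {s | s + L ≤ N}) ∪
          ((fun s : ℕ => {i : Fin L | s + (i : ℕ) ∈ A}) '' (Finset.Ico (N + 1 - L) N : Set ℕ)) := by
      rintro _ ⟨s, hs, rfl⟩
      obtain ⟨s', h1, h2⟩ := key s hs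
      rcases h1 with h1 | h1
      · exact Or.inl ⟨s', h1, same_block h2⟩
      · refine Or.inr ⟨s', ?_, same_block h2⟩
        rw [Finset.mem_coe, Finset.mem_Ico]
        omega
    unfold blocks at ih ⊢
    have h1 := Set.ncard_le_ncard hsub (Set.toFinite _)
    have h2 := Set.ncard_union_le ((fun s : ℕ => {i : Fin L | s + (i : ℕ) ∈ A}) '' {s | s + L ≤ N})
      ((fun s : ℕ => {i : Fin L | s + (i : ℕ) ∈ A}) '' (Finset.Ico (N + 1 - L) N : Set ℕ))
    have h3 : ((fun s : ℕ => {i : Fin L | s + (i : ℕ) ∈ A}) ''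
        (Finset.Ico (N + 1 - L) N : Set ℕ)).ncard ≤ L := by
      refine (Set.ncard_image_le (Finset.finite_toSet _)).trans ?_
      rw [Set.ncard_coe_finset, Nat.card_Ico]
      omega
    rw [add_mul, one_mul]
    omega

lemma cnt_eq (N : ℕ) : cnt A 0 N = (A ∩ Set.Iio N).ncard := by
  classical
  unfold cnt
  rw [← Set.ncard_coe_finset]
  congr 1
  ext i
  simp only [Finset.coe_filter, Finset.mem_range, zero_add, Set.mem_ofPred_eq, Set.mem_inter_iff,
    Set.mem_Iio]
  exact and_comm

theorem main_lz {N z D : ℕ} (hz : Parses A z N) (hr : ∀ n, rep A n < 2 ^ (D + 1)) :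
    (A ∩ Set.Iio N).ncard ≤ 2 * (50 * z * (Nat.log 2 N + 1)) ^ D := by
  rw [← cnt_eq]
  exact main (fun L hL _ => blocks_parses hz hL) hr

end Pool.Agent.P8H23.SC
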