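import Pool.Agent.P8H23.SC.Defs3

/-!
# Package MOR
-/

set_option autoImplicit false

namespace Pool.Agent.P8H23.SC

open Finset

variable {α : Type} {σ : α → List α} {w : ℕ → α}

lemma len_succ (n : ℕ) : len σ w (n + 1) = len σ w n + (σ (w n)).length := by
  unfold len
  rw [Finset.sum_range_succ]

lemma len_mono : Monotone (len σ w) :=
  monotone_nat_of_le_succ fun n => by
    rw [len_succ]
    omega

lemma iter_mono (k : ℕ) : Monotone ((len σ w)^[k]) := len_mono.iterate k

lemma same_token (hw : IsFixed σ w) (k : ℕ) : ∀ i i', w i = w i' → ∃ l,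
    (len σ w)^[k] (i + 1) = (len σ w)^[k] i + l ∧ (len σ w)^[k] (i' + 1) = (len σ w)^[k] i' + l ∧
    ∀ j < l, w ((len σ w)^[k] i + j) = w ((len σ w)^[k] i' + j) := by
  induction k with
  | zero =>
    intro i i' h
    refine ⟨1, rfl, rfl, fun j hj => ?_⟩
    obtain rfl : j = 0 := by omega
    simpa using h
  | succ k ih =>
    intro i i' h
    have key : ∀ t ≤ (σ (w i)).length, ∃ l,
        (len σ w)^[k] (len σ w i + t) = (len σ w)^[k] (len σ w i) + l ∧
        (len σ w)^[k] (len σ w i' + t) = (len σ w)^[k] (len σ w i') + l ∧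
        ∀ j < l, w ((len σ w)^[k] (len σ w i) + j) = w ((len σ w)^[k] (len σ w i') + j) := by
      intro t
      induction t with
      | zero => exact fun _ => ⟨0, rfl, rfl, fun j hj => absurd hj (Nat.not_lt_zero j)⟩
      | succ t iht =>
        intro ht
        obtain ⟨l, h1, h2, h3⟩ := iht (by omega)
        have e1 := hw i t (by omega)
        have e2 := hw i' t (by rw [← h]; omega)
        have e3 : w (len σ w i + t) = w (len σ w i' + t) := by
          rw [e1, e2]
          simp only [h]
        obtain ⟨l2, h4, h5, h6⟩ := ih _ _ e3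
        refine ⟨l + l2, ?_, ?_, ?_⟩
        · rw [← add_assoc, h4, h1, add_assoc]
        · rw [← add_assoc, h5, h2, add_assoc]
        · intro j hj
          rcases Nat.lt_or_ge j l with h7 | h7
          · exact h3 j h7
          · have h8 := h6 (j - l) (by omega)
            rw [h1, h2] at h8
            rw [show (len σ w)^[k] (len σ w i) + j = (len σ w)^[k] (len σ w i) + l + (j - l) by omega,
              show (len σ w)^[k] (len σ w i') + j = (len σ w)^[k] (len σ w i') + l + (j - l) by omega]
            exact h8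
    obtain ⟨l, h1, h2, h3⟩ := key _ le_rfl
    refine ⟨l, ?_, ?_, ?_⟩
    · rw [Function.iterate_succ_apply, Function.iterate_succ_apply, len_succ]
      exact h1
    · rw [Function.iterate_succ_apply, Function.iterate_succ_apply, len_succ, ← h]
      exact h2
    · intro j hj
      rw [Function.iterate_succ_apply, Function.iterate_succ_apply]
      exact h3 j hj

/-- the letter `w i` occurs before -/
def Old (w : ℕ → α) (i : ℕ) : Prop := ∃ i' < i, w i' = w i

open Classical in
/-- the cost of a token -/
noncomputable def cost (σ : α → List α) (w : ℕ → α) : ℕ → ℕ → ℕ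
  | 0, _ => 1
  | k + 1, i => if Old w i then 1 else
      ∑ j ∈ range (σ (w i)).length, cost σ w k (len σ w i + j)

lemma cost_old (k i : ℕ) (h : Old w i) : cost σ w k i = 1 := by
  cases k with
  | zero => rfl
  | succ k => rw [cost, if_pos h]

lemma step (hw : IsFixed σ w) (B : Set α) (k : ℕ) : ∀ i z, Parses {n | w n ∈ B} z ((len σ w)^[k] i) →
    ∃ z' ≤ z + cost σ w k i, Parses {n | w n ∈ B} z' ((len σ w)^[k] (i + 1)) := by
  induction k with
  | zero => exact fun i z h => ⟨z + 1, le_rfl, Parses.letter h⟩
  | succ k ih =>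
    intro i z h
    by_cases ho : Old w i
    · obtain ⟨i', hi', he⟩ := ho
      obtain ⟨l, h1, h2, h3⟩ := same_token hw (k + 1) i' i he
      rw [cost_old (k + 1) i ⟨i', hi', he⟩, h2]
      rcases Nat.eq_zero_or_pos l with rfl | hl
      · exact ⟨z, Nat.le_succ z, h⟩
      · refine ⟨z + 1, le_rfl, Parses.copy ((len σ w)^[k + 1] i') l h ?_ ?_⟩
        · have := iter_mono (σ := σ) (w := w) (k + 1) (show i' + 1 ≤ i from hi')
          omega
        · intro j hj
          have := h3 j hj
          rw [Set.mem_ofPred_eq, Set.mem_ofPred_eq, this]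
    · have key : ∀ t ≤ (σ (w i)).length,
          ∃ z' ≤ z + ∑ j ∈ range t, cost σ w k (len σ w i + j),
            Parses {n | w n ∈ B} z' ((len σ w)^[k] (len σ w i + t)) := by
        intro t
        induction t with
        | zero =>
          intro _
          refine ⟨z, by simp, ?_⟩
          rw [Function.iterate_succ_apply] at h
          exact h
        | succ t iht =>
          intro ht
          obtain ⟨z1, h1, h2⟩ := iht (by omega)
          obtain ⟨z2, h3, h4⟩ := ih _ z1 h2
          refine ⟨z2, ?_, h4⟩
          rw [Finset.sum_range_succ]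
          omega
      obtain ⟨z', h1, h2⟩ := key _ le_rfl
      refine ⟨z', ?_, ?_⟩
      · rw [cost, if_neg ho]
        exact h1
      · rw [Function.iterate_succ_apply, len_succ]
        exact h2

lemma card_new [Fintype α] (F : Finset ℕ) (hF : ∀ i ∈ F, ¬ Old w i) : F.card ≤ Fintype.card α := by
  classical
  rw [← Finset.card_univ]
  refine Finset.card_le_card_of_injOn w (fun i _ => Finset.mem_coe.2 (Finset.mem_univ _)) ?_
  intro i hi i' hi' he
  rcases lt_trichotomy i i' with h | h | h
  · exact absurd ⟨i, h, he⟩ (hF i' hi')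
  · exact h
  · exact absurd ⟨i', h, he.symm⟩ (hF i hi)

lemma cost_sum [Fintype α] {M : ℕ} (hM : ∀ b, (σ b).length ≤ M) (k : ℕ) : ∀ F : Finset ℕ,
    (∀ i ∈ F, ¬ Old w i) →
    ∑ i ∈ F, cost σ w k i ≤ Fintype.card α + k * (Fintype.card α * M) := by
  classical
  induction k with
  | zero =>
    intro F hF
    have := card_new F hF
    simpa [cost] using this
  | succ k ih =>
    intro F hF
    have e1 : ∑ i ∈ F, cost σ w (k + 1) i =
        ∑ i ∈ F, ∑ x ∈ Finset.Ico (len σ w i) (len σ w (i + 1)), cost σ w k x := by
      refine Finset.sum_congr rfl fun i hi => ?_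
      rw [cost, if_neg (hF i hi), Finset.sum_Ico_eq_sum_range, len_succ, Nat.add_sub_cancel_left]
    have hdis : (F : Set ℕ).PairwiseDisjoint
        (fun i => Finset.Ico (len σ w i) (len σ w (i + 1))) := by
      intro i _ i' _ hne
      rw [Function.onFun, Finset.disjoint_left]
      intro x hx hx'
      rw [Finset.mem_Ico] at hx hx'
      rcases lt_or_gt_of_ne hne with h | h
      · have := len_mono (σ := σ) (w := w) (show i + 1 ≤ i' from h)
        omega
      · have := len_mono (σ := σ) (w := w) (show i' + 1 ≤ i from h)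
        omega
    rw [e1, ← Finset.sum_biUnion hdis]
    set G := F.biUnion fun i => Finset.Ico (len σ w i) (len σ w (i + 1)) with hG
    have hcard : G.card ≤ Fintype.card α * M := by
      refine Finset.card_biUnion_le.trans ?_
      refine (Finset.sum_le_card_nsmul F _ M fun i _ => ?_).trans ?_
      · rw [Nat.card_Ico, len_succ, Nat.add_sub_cancel_left]
        exact hM _
      · rw [smul_eq_mul]
        exact Nat.mul_le_mul_right _ (card_new F hF)
    rw [← Finset.sum_filter_add_sum_filter_not G (fun x => Old w x)]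
    have h1 : ∑ x ∈ G with Old w x, cost σ w k x ≤ Fintype.card α * M := by
      rw [Finset.sum_congr rfl (fun x hx => cost_old k x (Finset.mem_filter.1 hx).2)]
      rw [Finset.sum_const, smul_eq_mul, mul_one]
      exact (Finset.card_filter_le _ _).trans hcard
    have h2 := ih (G.filter fun x => ¬ Old w x) (fun i hi => (Finset.mem_filter.1 hi).2)
    rw [add_mul, one_mul]
    omega

lemma truncate {A : Set ℕ} {z N' : ℕ} (h : Parses A z N') : ∀ N ≤ N', ∃ z' ≤ z, Parses A z' N := by
  induction h with
  | nil =>
    intro N hN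
    obtain rfl : N = 0 := by omega
    exact ⟨0, le_rfl, Parses.nil⟩
  | @letter z N₁ h ih =>
    intro N hN
    rcases Nat.lt_or_ge N₁ N with h1 | h1
    · obtain rfl : N = N₁ + 1 := by omega
      exact ⟨z + 1, le_rfl, Parses.letter h⟩
    · obtain ⟨z', h2, h3⟩ := ih N h1
      exact ⟨z', h2.trans (Nat.le_succ z), h3⟩
  | @copy z N₁ q l h hq hl ih =>
    intro N hN
    rcases Nat.lt_or_ge N₁ N with h1 | h1
    · refine ⟨z + 1, le_rfl, ?_⟩
      have h2 := Parses.copy q (N - N₁) h hq (fun j hj => hl j (by omega))
      rwa [show N₁ + (N - N₁) = N by omega] at h2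
    · obtain ⟨z', h2, h3⟩ := ih N h1
      exact ⟨z', h2.trans (Nat.le_succ z), h3⟩

theorem mor : S_MOR := by
  intro α _ σ w B M hM1 hM hw k N hN
  have h0 : (len σ w)^[k] 0 = 0 := by
    apply Function.iterate_fixed
    simp [len]
  obtain ⟨z, h1, h2⟩ := step hw B k 0 0 (by rw [h0]; exact Parses.nil)
  rw [zero_add] at h1 h2
  obtain ⟨z', h3, h4⟩ := truncate h2 N hN
  refine ⟨z', ?_, h4⟩
  have h5 := cost_sum (w := w) hM k {0} (by
    intro i hi
    rw [Finset.mem_singleton] at hi
    subst hi
    rintro ⟨i', hi', _⟩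
    exact absurd hi' (Nat.not_lt_zero i'))
  rw [Finset.sum_singleton] at h5
  have h6 : Fintype.card α ≤ Fintype.card α * M := Nat.le_mul_of_pos_right _ hM1
  calc z' ≤ cost σ w k 0 := h3.trans h1
    _ ≤ Fintype.card α + k * (Fintype.card α * M) := h5
    _ ≤ (k + 1) * (Fintype.card α * M) := by rw [add_mul, one_mul]; omega

end Pool.Agent.P8H23.SC
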