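import Pool.Agent.P8H23.SC.LZ

/-!
# Density thresholds
-/

set_option autoImplicit false

namespace Pool.Agent.P8H23.SC

open Filter

variable {A : Set ℕ}

/-- `|A ∩ {1, ..., N}| ≫ N ^ (1 / 2) / g(N)`. -/
def Dense (g : ℕ → ℝ) (A : Set ℕ) : Prop :=
  ∃ C : ℝ, 0 < C ∧ ∀ᶠ N : ℕ in atTop,
    (N : ℝ) ^ (1 / 2 : ℝ) / g N ≤ C * (A ∩ Set.Icc 1 N).ncard

lemma log_small (ε : ℝ) (hε : 0 < ε) (D : ℕ) :
    ∀ᶠ N : ℕ in atTop, ((Nat.log 2 N : ℝ) + 1) ^ D ≤ (N : ℝ) ^ ε := by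
  have h1 : ∀ᶠ x : ℝ in atTop, ‖Real.log x ^ ((D : ℝ) + 1)‖ ≤ 1 * ‖x ^ ε‖ :=
    (isLittleO_log_rpow_rpow_atTop ((D : ℝ) + 1) hε).bound one_pos
  have h2 := tendsto_natCast_atTop_atTop (R := ℝ) |>.eventually h1
  have h3 : ∀ᶠ x : ℝ in atTop, (4 : ℝ) ^ D + 4 ^ D ≤ Real.log x := Real.tendsto_log_atTop.eventually_ge_atTop _
  have h4 := tendsto_natCast_atTop_atTop (R := ℝ) |>.eventually h3
  filter_upwards [h2, h4, eventually_ge_atTop 1] with N h2 h4 hN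
  have hN1 : (1 : ℝ) ≤ N := by exact_mod_cast hN
  have h40 : (1 : ℝ) ≤ 4 ^ D := one_le_pow₀ (by norm_num)
  have hl : (1 : ℝ) ≤ Real.log N := by linarith
  have h5 : (Nat.log 2 N : ℝ) + 1 ≤ 4 * Real.log N := by
    have h6 : (2 : ℝ) ^ (Nat.log 2 N) ≤ N := by
      exact_mod_cast Nat.pow_log_le_self 2 (by omega)
    have h7 := Real.log_le_log (by positivity) h6
    rw [Real.log_pow] at h7
    have h8 := Real.log_two_gt_d9
    have h9 : (0 : ℝ) ≤ Nat.log 2 N := Nat.cast_nonneg _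
    nlinarith
  rw [one_mul, Real.norm_of_nonneg (by positivity), Real.norm_of_nonneg (by positivity),
    Real.rpow_add_one (by linarith), Real.rpow_natCast] at h2
  calc ((Nat.log 2 N : ℝ) + 1) ^ D ≤ (4 * Real.log N) ^ D :=
        pow_le_pow_left₀ (by positivity) h5 D
    _ = Real.log N ^ D * 4 ^ D := by rw [mul_pow]; ring
    _ ≤ Real.log N ^ D * Real.log N := by
        apply mul_le_mul_of_nonneg_left _ (by positivity)
        linarith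
    _ ≤ (N : ℝ) ^ ε := h2

theorem thr (g : ℕ → ℝ) (hg0 : ∀ N, 0 < g N) (hA : Dense g A) (D : ℕ) (β η : ℝ) (hη : 0 ≤ η)
    (hβ : β + D * η < 1 / 2)
    (hf : ∃ᶠ N : ℕ in atTop, g N ≤ (N : ℝ) ^ β ∧
      ∀ L, 1 ≤ L → L ≤ N → (blocks A N L : ℝ) ≤ (N : ℝ) ^ η * L) :
    ∃ n, 2 ^ (D + 1) ≤ rep A n := by
  by_contra hcon
  push Not at hcon
  obtain ⟨C, hC, hA⟩ := hA
  set ε : ℝ := (1 / 2 - β - D * η) / 2 with hε
  have hε0 : 0 < ε := by rw [hε]; linarith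
  have e1 := log_small ε hε0 D
  have e2 : ∀ᶠ x : ℝ in atTop, C * (2 * 100 ^ D + 1) + 1 ≤ x ^ ε :=
    (tendsto_rpow_atTop hε0).eventually_ge_atTop _
  have e3 := tendsto_natCast_atTop_atTop (R := ℝ) |>.eventually e2
  obtain ⟨N, ⟨h1, h2⟩, h3, h4, h5, h6⟩ :=
    (hf.and_eventually (hA.and (e1.and (e3.and (eventually_ge_atTop 1))))).exists
  have hN : (1 : ℝ) ≤ N := by exact_mod_cast h6
  have hN0 : (0 : ℝ) < N := by linarith
  have hNη : (1 : ℝ) ≤ (N : ℝ) ^ η := Real.one_le_rpow hN hη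
  have hNε : (1 : ℝ) ≤ (N : ℝ) ^ ε := Real.one_le_rpow hN hε0.le
  obtain ⟨K, hK⟩ : ∃ K : ℕ, K = ⌈(N : ℝ) ^ η⌉₊ := ⟨_, rfl⟩
  have hK1 : (N : ℝ) ^ η ≤ K := by rw [hK]; exact Nat.le_ceil _
  have hK2 : (K : ℝ) ≤ 2 * (N : ℝ) ^ η := by
    have := (Nat.ceil_lt_add_one (zero_le_one.trans hNη)).le
    rw [← hK] at this
    linarith
  have hm := main (A := A) (N := N) (K := K) (D := D) (by
    intro L hL hLN
    have h7 := h2 L hL hLN
    have h8 : (blocks A N L : ℝ) ≤ (K : ℝ) * L :=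
      h7.trans (mul_le_mul_of_nonneg_right hK1 (Nat.cast_nonneg _))
    exact_mod_cast h8) hcon
  have hcard : (A ∩ Set.Icc 1 N).ncard ≤ cnt A 0 N + 1 := by
    rw [cnt_eq]
    have hfin : (A ∩ Set.Iio N).Finite := (Set.finite_Iio N).subset fun a ha => ha.2
    refine (Set.ncard_le_ncard (t := insert N (A ∩ Set.Iio N)) ?_ (hfin.insert N)).trans
      (Set.ncard_insert_le _ _)
    intro a ha
    rcases Nat.lt_or_ge a N with h | h
    · exact Or.inr ⟨ha.1, h⟩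
    · left
      exact le_antisymm ha.2.2 h
  have hcardR : ((A ∩ Set.Icc 1 N).ncard : ℝ) ≤ 2 * (50 * K * ((Nat.log 2 N : ℝ) + 1)) ^ D + 1 := by
    have h7 : (A ∩ Set.Icc 1 N).ncard ≤ 2 * (50 * K * (Nat.log 2 N + 1)) ^ D + 1 :=
      hcard.trans (Nat.add_le_add_right hm 1)
    exact_mod_cast h7
  have hbd : 2 * (50 * K * ((Nat.log 2 N : ℝ) + 1)) ^ D + 1 ≤
      (2 * 100 ^ D + 1) * ((N : ℝ) ^ (D * η) * (N : ℝ) ^ ε) := by
    have h8 : (50 * K * ((Nat.log 2 N : ℝ) + 1)) ^ D ≤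
        100 ^ D * ((N : ℝ) ^ (D * η) * (N : ℝ) ^ ε) := by
      calc (50 * K * ((Nat.log 2 N : ℝ) + 1)) ^ D
          ≤ (100 * (N : ℝ) ^ η * ((Nat.log 2 N : ℝ) + 1)) ^ D := by
            apply pow_le_pow_left₀ (by positivity)
            apply mul_le_mul_of_nonneg_right _ (by positivity)
            linarith
        _ = 100 ^ D * (((N : ℝ) ^ η) ^ D * ((Nat.log 2 N : ℝ) + 1) ^ D) := by
            rw [mul_pow, mul_pow]; ring
        _ ≤ 100 ^ D * ((N : ℝ) ^ (D * η) * (N : ℝ) ^ ε) := by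
            apply mul_le_mul_of_nonneg_left _ (by positivity)
            rw [← Real.rpow_natCast ((N : ℝ) ^ η) D, ← Real.rpow_mul hN0.le, mul_comm η]
            exact mul_le_mul_of_nonneg_left h4 (by positivity)
    have h9 : (1 : ℝ) ≤ (N : ℝ) ^ (D * η) * (N : ℝ) ^ ε :=
      one_le_mul_of_one_le_of_one_le (Real.one_le_rpow hN (by positivity)) hNε
    linarith
  have hlow : (N : ℝ) ^ (D * η) * (N : ℝ) ^ ε * (N : ℝ) ^ ε ≤ (N : ℝ) ^ (1 / 2 : ℝ) / g N := by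
    have h10 : (N : ℝ) ^ (D * η) * (N : ℝ) ^ ε * (N : ℝ) ^ ε = (N : ℝ) ^ (1 / 2 - β : ℝ) := by
      rw [← Real.rpow_add hN0, ← Real.rpow_add hN0]
      congr 1
      rw [hε]
      ring
    rw [h10, Real.rpow_sub hN0]
    apply div_le_div_of_nonneg_left (by positivity) (hg0 N) h1
  have hfinal : (N : ℝ) ^ (D * η) * (N : ℝ) ^ ε * (N : ℝ) ^ ε ≤
      C * ((2 * 100 ^ D + 1) * ((N : ℝ) ^ (D * η) * (N : ℝ) ^ ε)) :=
    hlow.trans (h3.trans (mul_le_mul_of_nonneg_left (hcardR.trans hbd) hC.le))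
  have hpos : (0 : ℝ) < (N : ℝ) ^ (D * η) * (N : ℝ) ^ ε := by positivity
  have h11 : (N : ℝ) ^ ε ≤ C * (2 * 100 ^ D + 1) := by
    have : (N : ℝ) ^ (D * η) * (N : ℝ) ^ ε * (N : ℝ) ^ ε ≤
        (N : ℝ) ^ (D * η) * (N : ℝ) ^ ε * (C * (2 * 100 ^ D + 1)) := by
      calc _ ≤ _ := hfinal
        _ = _ := by ring
    exact le_of_mul_le_mul_left this hpos
  linarith

/-- unbounded representations for the sets with few blocks -/
theorem thr_unbounded (g : ℕ → ℝ) (hg0 : ∀ N, 0 < g N) (hA : Dense g A) (β : ℝ)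
    (hβ : β < 1 / 2)
    (hf : ∀ η : ℝ, 0 < η → ∃ᶠ N : ℕ in atTop, g N ≤ (N : ℝ) ^ β ∧
      ∀ L, 1 ≤ L → L ≤ N → (blocks A N L : ℝ) ≤ (N : ℝ) ^ η * L) (R : ℕ) :
    ∃ n, R < rep A n := by
  have h1 : (0 : ℝ) < (1 / 2 - β) / (R + 1) := div_pos (by linarith) (by positivity)
  obtain ⟨η, hη0, hη1⟩ := exists_between h1
  obtain ⟨n, hn⟩ := thr g hg0 hA R β η hη0.le (by
    rw [lt_div_iff₀ (by positivity)] at hη1
    nlinarith) (hf η hη0)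
  refine ⟨n, lt_of_lt_of_le ?_ hn⟩
  exact (Nat.lt_two_pow_self).trans_le (Nat.pow_le_pow_right (by norm_num) (Nat.le_succ R))

/-- unbounded representations for the compressible sets -/
theorem thr_lz (g : ℕ → ℝ) (hg0 : ∀ N, 0 < g N) (hA : Dense g A) (β : ℝ)
    (hβ : β < 1 / 2)
    (hf : ∀ η : ℝ, 0 < η → ∃ᶠ N : ℕ in atTop, g N ≤ (N : ℝ) ^ β ∧
      ∃ z, Parses A z N ∧ (z : ℝ) ≤ (N : ℝ) ^ η) (R : ℕ) :
    ∃ n, R < rep A n := by
  refine thr_unbounded g hg0 hA β hβ (fun η hη => (hf η hη).mono ?_) R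
  rintro N ⟨h1, z, h2, h3⟩
  refine ⟨h1, fun L hL _ => ?_⟩
  have h4 : (blocks A N L : ℝ) ≤ (z : ℝ) * L := by exact_mod_cast blocks_parses h2 hL
  exact h4.trans (mul_le_mul_of_nonneg_right h3 (Nat.cast_nonneg _))

end Pool.Agent.P8H23.SC
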