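import Pool.Agent.P8H23.SC.Defs3
import Pool.Agent.P8H23.SC.Thr

/-!
# Morphic sets of exponential growth
-/

set_option autoImplicit false

namespace Pool.Agent.P8H23.SC

theorem mor_growth (hmor : S_MOR) (α : Type) [Fintype α] (σ : α → List α) (w : ℕ → α) (B : Set α)
    (hw : IsFixed σ w) (c lam : ℝ) (hc : 0 < c) (hlam : 1 < lam)
    (hgr : ∀ k, c * lam ^ k ≤ ((len σ w)^[k] 1 : ℕ)) (D : ℕ)
    (hr : ∀ n, rep {n | w n ∈ B} n < 2 ^ (D + 1)) :
    ∃ C : ℕ, ∀ N, ({n | w n ∈ B} ∩ Set.Iio N).ncard ≤ C * (Nat.log 2 N + 1) ^ (2 * D) := by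
  obtain ⟨M, hM1, hM⟩ : ∃ M : ℕ, 1 ≤ M ∧ ∀ b, (σ b).length ≤ M := by
    refine ⟨(∑ b, (σ b).length) + 1, by omega, fun b => ?_⟩
    have := Finset.single_le_sum (f := fun b => (σ b).length) (fun i _ => Nat.zero_le _)
      (Finset.mem_univ b)
    exact this.trans (Nat.le_succ _)
  obtain ⟨q, hq⟩ := pow_unbounded_of_one_lt 2 hlam
  obtain ⟨q0, hq0⟩ := pow_unbounded_of_one_lt (1 / c) hlam
  set m := Fintype.card α with hm
  set E := (q + q0 + 1) * (m * M) with hE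
  refine ⟨2 * (50 * E) ^ D, fun N => ?_⟩
  have hN : N ≤ (len σ w)^[q * (Nat.log 2 N + 1) + q0] 1 := by
    have h1 := hgr (q * (Nat.log 2 N + 1) + q0)
    have h2 : (N : ℝ) ≤ 2 ^ (Nat.log 2 N + 1) := by
      have := Nat.lt_pow_succ_log_self (b := 2) (by norm_num) N
      exact_mod_cast this.le
    have h3 : (1 : ℝ) ≤ c * lam ^ q0 := by
      rw [div_lt_iff₀ hc] at hq0
      linarith
    have h4 : (2 : ℝ) ^ (Nat.log 2 N + 1) ≤ (lam ^ q) ^ (Nat.log 2 N + 1) :=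
      pow_le_pow_left₀ (by norm_num) hq.le _
    have h5 : (N : ℝ) ≤ ((len σ w)^[q * (Nat.log 2 N + 1) + q0] 1 : ℕ) := by
      calc (N : ℝ) ≤ (lam ^ q) ^ (Nat.log 2 N + 1) := h2.trans h4
        _ ≤ (c * lam ^ q0) * (lam ^ q) ^ (Nat.log 2 N + 1) :=
          le_mul_of_one_le_left (by positivity) h3
        _ = c * lam ^ (q * (Nat.log 2 N + 1) + q0) := by
          rw [pow_add lam, pow_mul]; ring
        _ ≤ _ := h1
    exact_mod_cast h5
  obtain ⟨z, hz, hp⟩ := hmor α σ w B M hM1 hM hw _ N hN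
  have hz2 : z ≤ E * (Nat.log 2 N + 1) := by
    refine hz.trans ?_
    rw [hE]
    have : q * (Nat.log 2 N + 1) + q0 + 1 ≤ (q + q0 + 1) * (Nat.log 2 N + 1) := by nlinarith
    calc _ ≤ (q + q0 + 1) * (Nat.log 2 N + 1) * (m * M) := Nat.mul_le_mul_right _ this
      _ = _ := by ring
  refine (main_lz hp hr).trans ?_
  calc 2 * (50 * z * (Nat.log 2 N + 1)) ^ D
      ≤ 2 * (50 * (E * (Nat.log 2 N + 1)) * (Nat.log 2 N + 1)) ^ D := by gcongr
    _ = 2 * (50 * E) ^ D * (Nat.log 2 N + 1) ^ (2 * D) := by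
        rw [pow_mul, mul_assoc 2, ← mul_pow]
        congr 2
        ring

end Pool.Agent.P8H23.SC
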